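import Pool.Agent.Lib.helper28.DixA

set_option autoImplicit false

namespace Pool.Agent.Results.MP_9105af_an.No

open Filter Topology Set BoundedContinuousFunction Pool.Agent.H28Roe Pool.Agent.H28Dix

section defs

variable {H : Type} [NormedAddCommGroup H] [InnerProductSpace ℂ H] [CompleteSpace H]

/-- the logarithmic means of the singular values (index `N` stands for `N + 1`) -/
noncomputable def logMean (T : H →L[ℂ] H) (N : ℕ) : ℝ :=
  (∑ k ∈ Finset.range (N + 1), mu T k) / Real.log (N + 2)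

/-- the Dixmier-Macaev ideal -/
def M1 (T : H →L[ℂ] H) : Prop := IsCompactOperator T ∧ BddAbove (range (logMean T))

/-- trace class operators -/
def TraceClass (T : H →L[ℂ] H) : Prop := IsCompactOperator T ∧ Summable (mu T)

/-- `R` is the positive square root of the inverse of `1 + D ^ 2` -/
def IsInvBracket (D : H →ₗ.[ℂ] H) (R : H →L[ℂ] H) : Prop :=
  0 ≤ R ∧ ∀ x, ∃ (h1 : R (R x) ∈ D.domain) (h2 : D ⟨R (R x), h1⟩ ∈ D.domain),
    R (R x) + D ⟨D ⟨R (R x), h1⟩, h2⟩ = x

/-- a spectral triple of dimension `n` as in the problem, with `R = (1 + D ^ 2) ^ (-1/2)` -/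
structure Triple (A : StarSubalgebra ℂ (H →L[ℂ] H)) (D : H →ₗ.[ℂ] H) (R : H →L[ℂ] H) (n : ℝ) :
    Prop where
  gen : ∃ s : Set (H →L[ℂ] H), s.Countable ∧ A = StarAlgebra.adjoin ℂ s
  sa : IsSelfAdjoint D
  comm : ∀ a ∈ A, ∃ (h : ∀ x : D.domain, a x ∈ D.domain) (C : ℝ),
    ∀ x : D.domain, ‖D ⟨a x, h x⟩ - a (D x)‖ ≤ C * ‖(x : H)‖
  inv : IsInvBracket D R
  cpt : IsCompactOperator R
  dim : IsLeast {m : ℝ | ∀ p, m < p → TraceClass (pw R p)} n
  mem : M1 (pw R n)

/-- a generalised limit on the bounded real sequences -/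
def GenLimit (ω : (ℕ →ᵇ ℝ) →ₗ[ℝ] ℝ) : Prop :=
  (∀ x, 0 ≤ x → 0 ≤ ω x) ∧ ω 1 = 1 ∧ ∀ x : ℕ →ᵇ ℝ, Tendsto x atTop (𝓝 0) → ω x = 0

/-- `Tr` is given by the Dixmier formula for `ω` on the positive part of the ideal -/
def DixmierFormula (ω : (ℕ →ᵇ ℝ) →ₗ[ℝ] ℝ) (Tr : (H →L[ℂ] H) → ℂ) : Prop :=
  ∀ T, 0 ≤ T → M1 T → ∀ x : ℕ →ᵇ ℝ, (∀ N, x N = logMean T N) → Tr T = ω x

/-- the bicommutant -/
def bicom (A : StarSubalgebra ℂ (H →L[ℂ] H)) : Set (H →L[ℂ] H) :=
  centralizer (centralizer (A : Set (H →L[ℂ] H)))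

/-- `N` contains no nonzero finite rank operator -/
def NoFinRank (N : Set (H →L[ℂ] H)) : Prop :=
  ∀ T ∈ N, FiniteDimensional ℂ (LinearMap.range (T : H →ₗ[ℂ] H)) → T = 0

/-- normality: complete additivity on orthogonal families of projections of `N` -/
def NormalOn (N : Set (H →L[ℂ] H)) (ρ : (H →L[ℂ] H) → ℂ) : Prop :=
  ∀ (ι : Type) (P : ι → H →L[ℂ] H) (Q : H →L[ℂ] H), (∀ i, P i ∈ N ∧ IsStarProjection (P i)) →
    (Pairwise fun i j => P i * P j = 0) → (∀ x, HasSum (fun i => P i x) (Q x)) →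
    HasSum (fun i => ρ (P i)) (ρ Q)

/-- the noncommutative integral -/
noncomputable def integ (Tr : (H →L[ℂ] H) → ℂ) (R : H →L[ℂ] H) (n : ℝ) (S : H →L[ℂ] H) : ℂ :=
  Tr (S * pw R n)

end defs

noncomputable def rr (k : ℕ) : ℝ := 1 / (k + 1)
noncomputable def dd (k : ℕ) : ℝ := √((k + 1) ^ 2 - 1)
def lv (k : ℕ) : ℕ := (Nat.unpair k).1
noncomputable def ch (a k : ℕ) : ℝ := if lv k = a then 1 else 0

lemma rr_pos (k : ℕ) : 0 < rr k := by unfold rr; positivity
lemma rr_anti : Antitone rr := fun _ _ h => Nat.one_div_le_one_div h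
lemma rr_le (k : ℕ) : rr k ≤ 1 := by simpa [rr] using rr_anti (Nat.zero_le k)
lemma rr_lim : Tendsto rr atTop (𝓝 0) := tendsto_one_div_add_atTop_nhds_zero_nat
lemma rd (k : ℕ) : rr k * rr k * (1 + dd k * dd k) = 1 := by
  have : (0 : ℝ) ≤ k := Nat.cast_nonneg k
  unfold dd rr
  rw [Real.mul_self_sqrt (by nlinarith)]
  field_simp; ring

noncomputable def RR : Op ℕ := (exists_dg (fun k => (rr k : ℝ)) (K := 1) fun k => by
  rw [Complex.norm_real, Real.norm_eq_abs, abs_of_pos (rr_pos k)]; exact rr_le k).choose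
lemma RR_dg : IsDg RR fun k => rr k := Exists.choose_spec (p := fun T => IsDg T _) _
lemma RR_nonneg : 0 ≤ RR := RR_dg.nonneg fun k => (rr_pos k).le
lemma pw_RR {p : ℝ} (hp : 0 ≤ p) : IsDg (pw RR p) fun k => (rr k ^ p : ℝ) :=
  pw_dg RR_dg (IsSelfAdjoint.of_nonneg RR_nonneg) hp
lemma pw_one : pw RR 1 = RR := (pw_RR zero_le_one).ext (RR_dg.congr fun k => by simp)

noncomputable def PP (a : ℕ) : Op ℕ := (exists_dg (fun k => (ch a k : ℝ)) (K := 1) fun k => by
  unfold ch; split_ifs <;> simp).choose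
lemma PP_dg (a : ℕ) : IsDg (PP a) fun k => ch a k := Exists.choose_spec (p := fun T => IsDg T _) _

noncomputable def AA : StarSubalgebra ℂ (Op ℕ) := StarAlgebra.adjoin ℂ (range PP)

lemma AA_dg {a : Op ℕ} (h : a ∈ AA) : ∃ c : ℕ → ℂ, IsDg a fun k => c (lv k) := by
  induction h using StarAlgebra.adjoin_induction with
  | mem x hx =>
    obtain ⟨a, rfl⟩ := hx
    exact ⟨fun i => ((if i = a then 1 else 0 : ℝ) : ℂ), PP_dg a⟩
  | algebraMap r => exact ⟨fun _ => r, IsDg.alg r⟩
  | add x y _ _ hx hy =>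
    obtain ⟨c, hc⟩ := hx
    obtain ⟨e, he⟩ := hy
    exact ⟨fun i => c i + e i, hc.add he⟩
  | mul x y _ _ hx hy =>
    obtain ⟨c, hc⟩ := hx
    obtain ⟨e, he⟩ := hy
    exact ⟨fun i => c i * e i, hc.mul he⟩
  | star x _ hx =>
    obtain ⟨c, hc⟩ := hx
    exact ⟨fun i => (starRingEnd ℂ) (c i), hc.star⟩

noncomputable def dom : Submodule ℂ (L2 ℕ) where
  carrier := {x | Memℓp (fun k => (dd k : ℂ) * x k) 2}
  add_mem' {x y} hx hy := by
    have := Memℓp.add hx hy
    show Memℓp _ 2
    convert this using 1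
    funext k; simp [mul_add]
  zero_mem' := by
    show Memℓp _ 2
    simpa using zero_mem_ℓp'
  smul_mem' c x hx := by
    have := Memℓp.const_smul hx c
    have e : (fun k => (dd k : ℂ) * (c • x) k) = c • fun k => (dd k : ℂ) * x k :=
      funext fun k => mul_left_comm (dd k : ℂ) c (x k)
    show Memℓp (fun k => (dd k : ℂ) * (c • x) k) 2
    rw [e]
    exact this

noncomputable def DD : L2 ℕ →ₗ.[ℂ] L2 ℕ where
  domain := dom
  toFun :=
    { toFun := fun x => ⟨fun k => (dd k : ℂ) * x.1 k, x.2⟩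
      map_add' := fun _ _ => lp.ext (funext fun _ => mul_add _ _ _)
      map_smul' := fun _ _ => lp.ext (funext fun _ => mul_left_comm _ _ _) }

lemma DD_apply (x : DD.domain) (k : ℕ) : DD x k = dd k * x.1 k := rfl

lemma mem_dom {x y : L2 ℕ} (h : ∀ k, y k = dd k * x k) : x ∈ DD.domain := by
  have := lp.memℓp y
  rw [show (y : ℕ → ℂ) = fun k => (dd k : ℂ) * x k from funext h] at this
  exact this

lemma delta_dom (k : ℕ) : delta k ∈ DD.domain :=
  mem_dom (y := (dd k : ℂ) • delta k) fun j => by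
    rw [lp.coeFn_smul, Pi.smul_apply, delta_apply]
    split_ifs with a
    · rw [a, smul_eq_mul]
    · simp

lemma DD_dense : Dense (DD.domain : Set (L2 ℕ)) := by
  rw [Submodule.dense_iff_topologicalClosure_eq_top, Submodule.topologicalClosure_eq_top_iff,
    Submodule.eq_bot_iff]
  intro y hy
  refine lp.ext (funext fun k => ?_)
  have := (Submodule.mem_orthogonal _ _).1 hy _ (delta_dom k)
  rwa [inner_delta] at this

lemma DD_sa : IsSelfAdjoint DD := by
  have h1 : DD.IsFormalAdjoint DD := by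
    intro x y
    rw [lp.inner_eq_tsum, lp.inner_eq_tsum]
    refine tsum_congr fun k => ?_
    rw [DD_apply, DD_apply]
    simp; ring
  have h2 := h1.le_adjoint DD_dense
  rw [LinearPMap.isSelfAdjoint_def]
  refine (LinearPMap.eq_of_le_of_domain_eq h2 (le_antisymm h2.1 fun y hy => ?_)).symm
  refine mem_dom (y := DD.adjoint ⟨y, hy⟩) fun k => ?_
  have := (LinearPMap.adjoint_isFormalAdjoint DD_dense).symm ⟨delta k, delta_dom k⟩ ⟨y, hy⟩
  have e : DD ⟨delta k, delta_dom k⟩ = (dd k : ℂ) • delta k := lp.ext (funext fun j => by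
    rw [DD_apply, lp.coeFn_smul, Pi.smul_apply]
    show _ * delta k j = _
    rw [delta_apply]
    split_ifs with a
    · rw [a, smul_eq_mul]
    · simp)
  rw [e, inner_smul_left, inner_delta, inner_delta, Complex.conj_ofReal] at this
  exact this.symm

lemma inv_br : IsInvBracket DD RR := by
  refine ⟨RR_nonneg, fun x => ?_⟩
  have b : ∀ k, 0 ≤ dd k ∧ rr k * dd k ≤ 1 := fun k => by
    have h0 : 0 ≤ dd k := Real.sqrt_nonneg _
    have h1 := rd k
    have h2 := rr_pos k
    exact ⟨h0, by nlinarith [mul_nonneg h2.le h0]⟩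
  obtain ⟨S, hS⟩ := exists_dg (fun k => ((rr k * dd k : ℝ) : ℂ)) (K := 1) fun k => by
    rw [Complex.norm_real, Real.norm_eq_abs, abs_of_nonneg (mul_nonneg (rr_pos k).le (b k).1)]
    exact (b k).2
  have h1 : RR (RR x) ∈ DD.domain := mem_dom (y := S (RR x)) fun k => by
    rw [hS, RR_dg, RR_dg, RR_dg]; push_cast; ring
  have h2 : DD ⟨_, h1⟩ ∈ DD.domain := mem_dom (y := S (S x)) fun k => by
    rw [hS, hS, DD_apply]
    show _ = _ * (_ * RR (RR x) k)
    rw [RR_dg, RR_dg]; push_cast; ring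
  refine ⟨h1, h2, lp.ext (funext fun k => ?_)⟩
  show RR (RR x) k + dd k * (dd k * RR (RR x) k) = _
  rw [RR_dg, RR_dg]
  have : (rr k : ℂ) * rr k * (1 + dd k * dd k) = 1 := by exact_mod_cast rd k
  linear_combination x k * this

lemma RR_compact : IsCompactOperator RR :=
  dg_compact RR_dg ((Complex.continuous_ofReal.tendsto 0).comp rr_lim)

lemma mu_RR (k : ℕ) : mu RR k = rr k := mu_anti RR_dg (fun k => (rr_pos k).le) rr_anti k

lemma log_lim : Tendsto (fun N : ℕ => Real.log (N + 2)) atTop atTop :=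
  Real.tendsto_log_atTop.comp (tendsto_atTop_add_const_right _ _ tendsto_natCast_atTop_atTop)

lemma logMean_RR : Tendsto (logMean RR) atTop (𝓝 1) := by
  have h := (Real.tendsto_harmonic_sub_log_add_one.comp (tendsto_add_atTop_nat 1)).div_atTop log_lim
  have h2 := h.add_const 1
  rw [zero_add] at h2
  refine h2.congr fun N => ?_
  have p : Real.log (N + 2) ≠ 0 := (Real.log_pos (by
    have : (0 : ℝ) ≤ N := Nat.cast_nonneg N
    linarith)).ne'
  unfold logMean
  simp only [mu_RR, rr, Function.comp, harmonic]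
  push_cast
  rw [show (N : ℝ) + 1 + 1 = N + 2 by ring]
  field_simp
  simp

lemma mu_PR (a : ℕ) : Summable (mu (PP a * RR)) := by
  have h := (PP_dg a).mul RR_dg
  have b : ∀ j, mu (PP a * RR) j ≤ rr (Nat.pair a j) := fun j => by
    refine mu_le h (s := (Finset.range j).image (Nat.pair a)) (Finset.card_image_le.trans (by simp))
      (rr_pos _).le fun k hk => ?_
    unfold ch
    split_ifs with c
    · have e : k = Nat.pair a (Nat.unpair k).2 := by
        rw [← c]; exact (Nat.pair_unpair k).symm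
      have : j ≤ (Nat.unpair k).2 := by
        by_contra d
        exact hk (Finset.mem_image.2 ⟨_, Finset.mem_range.2 (not_le.1 d), e.symm⟩)
      simp only [Complex.ofReal_one, one_mul, Complex.norm_real, Real.norm_eq_abs,
        abs_of_pos (rr_pos k)]
      refine rr_anti ?_
      rw [e]
      exact (strictMono_nat_of_lt_succ fun n => Nat.pair_lt_pair_right a n.lt_succ_self).monotone
        (by simpa using this)
    · simpa using (rr_pos _).le
  rw [← summable_nat_add_iff (a + 1)]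
  have s : Summable fun j : ℕ => 1 / ((j + (a + 1) : ℕ) : ℝ) ^ 2 :=
    (summable_nat_add_iff (f := fun j : ℕ => 1 / (j : ℝ) ^ 2) (a + 1)).2
      (Real.summable_one_div_nat_pow.2 one_lt_two)
  refine Summable.of_nonneg_of_le (fun j => mu_nonneg _ _) (fun j => (b _).trans ?_) s
  unfold rr Nat.pair
  rw [if_pos (by omega)]
  refine one_div_le_one_div_of_le (by positivity) ?_
  push_cast
  have : (0 : ℝ) ≤ a := Nat.cast_nonneg a
  nlinarith

lemma logMean_PR (a : ℕ) : Tendsto (logMean (PP a * RR)) atTop (𝓝 0) :=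
  ((mu_PR a).hasSum.tendsto_sum_nat.comp (tendsto_add_atTop_nat 1)).div_atTop log_lim

lemma val {ω : (ℕ →ᵇ ℝ) →ₗ[ℝ] ℝ} (hω : GenLimit ω) {Tr : Op ℕ → ℂ} (h : DixmierFormula ω Tr)
    {T : Op ℕ} (h0 : 0 ≤ T) (hc : IsCompactOperator T) {c : ℝ}
    (hl : Tendsto (logMean T) atTop (𝓝 c)) : Tr T = c := by
  obtain ⟨C, hC⟩ := hl.norm.bddAbove_range
  let x : ℕ →ᵇ ℝ := ofNormedAddCommGroupDiscrete (logMean T) C fun n => hC ⟨n, rfl⟩
  rw [h T h0 ⟨hc, hl.bddAbove_range⟩ x fun _ => rfl]
  have h1 : ω (x - c • 1) = 0 := hω.2.2 _ (by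
    have := hl.sub_const c
    rw [sub_self] at this
    refine this.congr fun n => ?_
    simp [x])
  rw [map_sub, map_smul, hω.2.1, smul_eq_mul, mul_one, sub_eq_zero] at h1
  rw [h1]

noncomputable def EE (k l : ℕ) : Op ℕ := (innerSL ℂ (delta l)).smulRight (delta k)

lemma EE_apply (k l : ℕ) (x : L2 ℕ) : EE k l x = x l • delta k := by
  rw [← inner_delta]; rfl

lemma no_fin : NoFinRank (bicom AA) := by
  intro T hT hf
  have c : ∀ k l, lv k = lv l → T (delta k) = T (delta l) l • delta k := by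
    intro k l h
    have h1 : EE k l * T = T * EE k l := hT _ fun a ha => by
      obtain ⟨c, hc⟩ := AA_dg ha
      refine ContinuousLinearMap.ext fun x => ?_
      rw [mul_apply_eq_comp, mul_apply_eq_comp, EE_apply, EE_apply, map_smul, hc.delta, hc,
        smul_smul, h, mul_comm]
    have h2 : (EE k l * T) (delta l) = (T * EE k l) (delta l) := by rw [h1]
    rw [mul_apply_eq_comp, mul_apply_eq_comp, EE_apply, EE_apply, delta_apply, if_pos rfl,
      one_smul] at h2
    exact h2.symm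
  refine ext_delta fun l => ?_
  by_contra a
  have t0 : T (delta l) l ≠ 0 := fun e => a (by rw [c l l rfl, e]; simp)
  let v : ℕ → LinearMap.range (T : L2 ℕ →ₗ[ℂ] L2 ℕ) := fun b =>
    ⟨delta (Nat.pair (lv l) b), (T (delta l) l)⁻¹ • delta (Nat.pair (lv l) b), by
      show T _ = _
      rw [map_smul, c (Nat.pair (lv l) b) l (by simp [lv]), smul_smul, inv_mul_cancel₀ t0, one_smul]⟩
  refine Module.Finite.not_linearIndependent_of_infinite (R := ℂ) v ?_
  refine LinearIndependent.of_comp (LinearMap.range (T : L2 ℕ →ₗ[ℂ] L2 ℕ)).subtype ?_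
  refine Orthonormal.linearIndependent ?_
  rw [orthonormal_iff_ite]
  intro i j
  show inner ℂ (delta _) (delta _) = _
  rw [inner_delta, delta_apply]
  simp

lemma PP_sum (x : L2 ℕ) : HasSum (fun a => PP a x) x := by
  have h : HasSum (fun k => x k • delta k) x := by
    have := lp.hasSum_single (p := 2) (by norm_num) x
    convert this using 2 with k
    refine lp.ext (funext fun j => ?_)
    rw [lp.coeFn_smul, Pi.smul_apply, delta_apply, lp.single_apply, Pi.single_apply]
    split_ifs <;> simp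
  have h2 := (Nat.pairEquiv.hasSum_iff (f := fun k => x k • delta k)).2 h
  refine h2.prod_fiberwise fun a => ?_
  have h3 := h.mapL (PP a)
  have inj : Function.Injective (Nat.pair a) := fun i j e => (Nat.pair_eq_pair.1 e).2
  have h4 := (inj.hasSum_iff (f := fun k => PP a (x k • delta k)) fun k hk => by
    rw [map_smul, (PP_dg a).delta, ch, if_neg]
    · simp
    · intro e; exact hk ⟨(Nat.unpair k).2, by rw [← e]; exact Nat.pair_unpair k⟩).2 h3
  convert h4 using 2 with b
  simp [(PP_dg a).delta, ch, lv]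
  exact congrArg _ (one_smul ℂ _).symm

theorem result : ∃ (A : StarSubalgebra ℂ (Op ℕ)) (D : L2 ℕ →ₗ.[ℂ] L2 ℕ) (R : Op ℕ) (n : ℝ),
    Triple A D R n ∧ NoFinRank (bicom A) ∧
    ∀ ω Tr, GenLimit ω → DixmierFormula ω Tr → ¬ NormalOn (bicom A) (integ Tr R n) := by
  refine ⟨AA, DD, RR, 1, ⟨⟨_, countable_range _, rfl⟩, DD_sa, ?_, inv_br, RR_compact, ⟨?_, ?_⟩, ?_⟩,
    no_fin, ?_⟩
  · intro a ha
    obtain ⟨c, hc⟩ := AA_dg ha
    have h : ∀ x : DD.domain, a x ∈ DD.domain := fun x => mem_dom (y := a (DD x)) fun k => by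
      rw [hc, hc, DD_apply]; ring
    refine ⟨h, 0, fun x => ?_⟩
    have : DD ⟨a x, h x⟩ = a (DD x) := lp.ext (funext fun k => by
      show (dd k : ℂ) * a x k = a (DD x) k
      rw [hc, hc, DD_apply]; ring)
    simp [this]
  · intro p hp
    have h := pw_RR (p := p) (by linarith)
    have s : Summable fun k => rr k ^ p := by
      have := (summable_nat_add_iff (f := fun j : ℕ => 1 / (j : ℝ) ^ p) 1).2
        (Real.summable_one_div_nat_rpow.2 hp)
      refine this.congr fun k => ?_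
      rw [rr, Real.div_rpow zero_le_one (by positivity), Real.one_rpow]; push_cast; rfl
    refine ⟨dg_compact h ((Complex.continuous_ofReal.tendsto 0).comp s.tendsto_atTop_zero), ?_⟩
    refine s.congr fun k => (mu_anti h (fun k => Real.rpow_nonneg (rr_pos k).le p) ?_ k).symm
    exact fun a b e => Real.rpow_le_rpow (rr_pos b).le (rr_anti e) (by linarith)
  · intro m hm
    by_contra a
    have h := (hm 1 (not_le.1 a)).2
    rw [pw_one, funext mu_RR] at h
    refine Real.not_summable_one_div_natCast ((summable_nat_add_iff 1).1 (h.congr fun k => ?_))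
    simp [rr]
  · rw [pw_one]
    exact ⟨RR_compact, logMean_RR.bddAbove_range⟩
  · intro ω Tr hω hT hN
    have h := hN ℕ PP 1 (fun a => ⟨subset_centralizer_centralizer
      (StarAlgebra.subset_adjoin ℂ _ ⟨a, rfl⟩), ?_, ?_⟩) ?_ PP_sum
    · have h0 : ∀ a, integ Tr RR 1 (PP a) = 0 := fun a => by
        unfold integ
        rw [pw_one]
        refine val hω hT (IsDg.nonneg (r := fun k => ch a k * rr k)
          (((PP_dg a).mul RR_dg).congr fun k => by simp) fun k => mul_nonneg ?_ (rr_pos k).le)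
          (RR_compact.clm_comp (PP a)) (logMean_PR a)
        unfold ch; split_ifs <;> norm_num
      have h1 : integ Tr RR 1 1 = 1 := by
        unfold integ
        rw [pw_one, one_mul]
        exact val hω hT RR_nonneg RR_compact logMean_RR
      rw [funext h0, h1] at h
      exact one_ne_zero (h.unique hasSum_zero)
    · exact ((PP_dg a).mul (PP_dg a)).ext ((PP_dg a).congr fun k => by
        unfold ch; split_ifs <;> simp)
    · exact (PP_dg a).star.ext ((PP_dg a).congr fun k => by simp)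
    · intro a b hab
      refine ((PP_dg a).mul (PP_dg b)).ext fun x k => ?_
      show (0 : ℂ) = (ch a k * ch b k : ℂ) * x k
      unfold ch
      split_ifs with c d
      · exact absurd (c.symm.trans d) hab
      all_goals simp

end Pool.Agent.Results.MP_9105af_an.No
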